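import Mathlib

/-!
# Monotone minorants with large derivative product, in every dimension

Let `u` be a nonnegative function on the closed orthant of `ℝ^m` which is increasing in each
variable, and let `C > 0`. Then there is a continuous `w`, increasing in each variable, with
`0 ≤ w ≤ u`, such that the product of the partial derivatives of `w` is at least `C` at every
point where `w` is differentiable and differs from `u`.

`w` is the least function with `min (u x) (w x + v (y - x)) ≤ w y` for all `x ≤ y`, where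
`v h = m (C h_1 ... h_m)^(1/m)`; it is a supremum over finite chains.
-/

open Set Filter Topology

namespace Pool.Agent.Results.MP_b39627_an.MonotoneMinorant

/-- The closed nonnegative orthant of `ℝ^m`. -/
def orthant (m : ℕ) : Set (Fin m → ℝ) := {x | ∀ i, 0 ≤ x i}

/-- `f` is increasing (non-decreasing) in each variable on the closed orthant: raising the `i`-th
coordinate, the others being fixed, does not lower the value. -/
def IncreasingInEach {m : ℕ} (f : (Fin m → ℝ) → ℝ) : Prop :=
  ∀ x ∈ orthant m, ∀ (i : Fin m) (t : ℝ), x i ≤ t → f x ≤ f (Function.update x i t)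

variable {m : ℕ}

lemma mem_orthant {x : Fin m → ℝ} : x ∈ orthant m ↔ ∀ i, 0 ≤ x i := Iff.rfl

lemma orthant_mono {x y : Fin m → ℝ} (hx : x ∈ orthant m) (h : x ≤ y) : y ∈ orthant m :=
  fun i => (hx i).trans (h i)

/-- increasing in each variable is the same as monotone for the coordinatewise order -/
lemma mono_of_inc {f : (Fin m → ℝ) → ℝ} (hf : IncreasingInEach f) {x y : Fin m → ℝ}
    (hx : x ∈ orthant m) (h : x ≤ y) : f x ≤ f y := by
  have key : ∀ s : Finset (Fin m), f x ≤ f (fun i => if i ∈ s then y i else x i) := by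
    intro s
    induction s using Finset.induction_on with
    | empty => simp
    | insert a s ha ih =>
      refine ih.trans ?_
      have hmem : (fun i => if i ∈ s then y i else x i) ∈ orthant m := by
        intro i
        by_cases hi : i ∈ s
        · simp [hi]; exact (hx i).trans (h i)
        · simp [hi]; exact hx i
      have := hf _ hmem a (y a) (by simp [ha]; exact h a)
      refine this.trans (le_of_eq ?_)
      congr 1
      ext i
      by_cases hia : i = a
      · subst hia; simp
      · simp [Finset.mem_insert, hia]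
  have := key Finset.univ
  simpa using this

lemma inc_of_mono {f : (Fin m → ℝ) → ℝ}
    (hf : ∀ x ∈ orthant m, ∀ y, x ≤ y → f x ≤ f y) : IncreasingInEach f := by
  intro x hx i t ht
  apply hf x hx
  intro j
  by_cases hj : j = i
  · subst hj; simpa using ht
  · simp [Function.update_of_ne hj]

/-! ### the function `v` -/

/-- `v h = m (C h_1 ... h_m)^(1/m)` -/
noncomputable def v (C : ℝ) (h : Fin m → ℝ) : ℝ := m * (C * ∏ i, h i) ^ ((1:ℝ) / m)

lemma v_cont (hm : 1 ≤ m) (C : ℝ) : Continuous (v C : (Fin m → ℝ) → ℝ) := by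
  unfold v
  have h : (0:ℝ) ≤ 1 / m := by positivity
  exact continuous_const.mul ((Real.continuous_rpow_const h).comp
    (continuous_const.mul (continuous_finsetProd _ (fun i _ => continuous_apply i))))

lemma v_nonneg {C : ℝ} (hC : 0 < C) {h : Fin m → ℝ} (hh : h ∈ orthant m) : 0 ≤ v C h := by
  unfold v
  have : 0 ≤ ∏ i, h i := Finset.prod_nonneg (fun i _ => hh i)
  positivity

lemma v_mono {C : ℝ} (hC : 0 < C) {h k : Fin m → ℝ} (hh : h ∈ orthant m) (hk : h ≤ k) :
    v C h ≤ v C k := by
  unfold v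
  have h0 : 0 ≤ ∏ i, h i := Finset.prod_nonneg (fun i _ => hh i)
  have h1 : ∏ i, h i ≤ ∏ i, k i := Finset.prod_le_prod (fun i _ => hh i) (fun i _ => hk i)
  gcongr

lemma v_zero (hm : 1 ≤ m) (C : ℝ) {h : Fin m → ℝ} (hh : ∃ i, h i = 0) : v C h = 0 := by
  obtain ⟨i, hi⟩ := hh
  unfold v
  rw [Finset.prod_eq_zero (Finset.mem_univ i) hi, mul_zero, Real.zero_rpow, mul_zero]
  have : (m:ℝ) ≠ 0 := by positivity
  positivity

lemma v_eq {C : ℝ} (hC : 0 < C) {h : Fin m → ℝ} (hh : h ∈ orthant m) :
    v C h = m * C ^ ((1:ℝ) / m) * ∏ i, (h i) ^ ((1:ℝ) / m) := by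
  unfold v
  rw [Real.mul_rpow hC.le (Finset.prod_nonneg (fun i _ => hh i)),
    ← Real.finsetProd_rpow _ _ (fun i _ => hh i)]
  ring

lemma v_super (hm : 1 ≤ m) {C : ℝ} (hC : 0 < C) {a b : Fin m → ℝ} (ha : a ∈ orthant m)
    (hb : b ∈ orthant m) : v C a + v C b ≤ v C (a + b) := by
  have hab : a + b ∈ orthant m := fun i => add_nonneg (ha i) (hb i)
  have hm0 : (m:ℝ) ≠ 0 := by positivity
  by_cases hz : ∃ i, (a + b) i = 0
  · obtain ⟨i, hi⟩ := hz
    have h1 : a i = 0 := by
      have := ha i; have := hb i; have h3 : a i + b i = 0 := hi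
      linarith
    have h2 : b i = 0 := by
      have := ha i; have := hb i; have h3 : a i + b i = 0 := hi
      linarith
    rw [v_zero hm C ⟨i, h1⟩, v_zero hm C ⟨i, h2⟩, v_zero hm C ⟨i, hi⟩]
    simp
  · push Not at hz
    have hpos : ∀ i, 0 < (a + b) i := fun i => lt_of_le_of_ne (hab i) (Ne.symm (hz i))
    have hw : ∑ _i : Fin m, (1:ℝ) / m = 1 := by
      simp; field_simp
    have key : ∀ c : Fin m → ℝ, c ∈ orthant m →
        (∏ i, (c i) ^ ((1:ℝ) / m)) ≤
          (∏ i, ((a + b) i) ^ ((1:ℝ) / m)) * ∑ i, (1:ℝ) / m * (c i / (a + b) i) := by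
      intro c hc
      have h1 := Real.geom_mean_le_arith_mean_weighted (Finset.univ : Finset (Fin m))
        (fun _ => (1:ℝ) / m) (fun i => c i / (a + b) i) (fun i _ => by positivity) hw
        (fun i _ => div_nonneg (hc i) (hab i))
      have h2 : (∏ i, (c i) ^ ((1:ℝ) / m)) =
          (∏ i, ((a + b) i) ^ ((1:ℝ) / m)) * ∏ i, (c i / (a + b) i) ^ ((1:ℝ) / m) := by
        rw [← Finset.prod_mul_distrib]
        apply Finset.prod_congr rfl
        intro i _
        rw [← Real.mul_rpow (hab i) (div_nonneg (hc i) (hab i))]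
        congr 1
        rw [mul_div_cancel₀ _ (hpos i).ne']
      rw [h2]
      apply mul_le_mul_of_nonneg_left h1
      exact Finset.prod_nonneg (fun i _ => Real.rpow_nonneg (hab i) _)
    have h3 := key a ha
    have h4 := key b hb
    have h5 : ∑ i, (1:ℝ) / m * (a i / (a + b) i) + ∑ i, (1:ℝ) / m * (b i / (a + b) i) = 1 := by
      rw [← Finset.sum_add_distrib]
      refine (Finset.sum_congr rfl ?_).trans hw
      intro i _
      have := (hpos i).ne'
      rw [← mul_add, ← add_div]
      have h6 : a i + b i = (a + b) i := rfl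
      rw [h6, div_self this, mul_one]
    have h7 : ∏ i, (a i) ^ ((1:ℝ) / m) + ∏ i, (b i) ^ ((1:ℝ) / m) ≤
        ∏ i, ((a + b) i) ^ ((1:ℝ) / m) := by
      calc _ ≤ (∏ i, ((a + b) i) ^ ((1:ℝ) / m)) * (∑ i, (1:ℝ) / m * (a i / (a + b) i) +
              ∑ i, (1:ℝ) / m * (b i / (a + b) i)) := by rw [mul_add]; linarith
        _ = _ := by rw [h5, mul_one]
    rw [v_eq hC ha, v_eq hC hb, v_eq hC hab, ← mul_add]
    apply mul_le_mul_of_nonneg_left h7
    positivity

lemma v_smul (hm : 1 ≤ m) {C : ℝ} (hC : 0 < C) {h : Fin m → ℝ} (hh : h ∈ orthant m) {t : ℝ}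
    (ht : 0 ≤ t) : v C (t • h) = t * v C h := by
  have hth : t • h ∈ orthant m := fun i => mul_nonneg ht (hh i)
  have hm0 : (m:ℝ) ≠ 0 := by positivity
  rw [v_eq hC hth, v_eq hC hh]
  have : ∏ i, ((t • h) i) ^ ((1:ℝ) / m) = t * ∏ i, (h i) ^ ((1:ℝ) / m) := by
    simp only [Pi.smul_apply, smul_eq_mul]
    rw [Finset.prod_congr rfl (fun i _ => Real.mul_rpow ht (hh i)), Finset.prod_mul_distrib]
    congr 1
    rw [Finset.prod_const, Finset.card_univ, Fintype.card_fin, ← Real.rpow_natCast,
      ← Real.rpow_mul ht]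
    rw [one_div, inv_mul_cancel₀ hm0, Real.rpow_one]
  rw [this]; ring

/-- the duality between `v` and the product of the slopes -/
lemma prod_ge (hm : 1 ≤ m) {C : ℝ} (hC : 0 < C) (p : Fin m → ℝ)
    (hp : ∀ h : Fin m → ℝ, (∀ i, 0 < h i) → v C h ≤ ∑ i, h i * p i) : C ≤ ∏ i, p i := by
  have hm0 : (m:ℝ) ≠ 0 := by positivity
  have hmpos : (0:ℝ) < m := by positivity
  have hpos : ∀ k, 0 < p k := by
    intro k
    by_contra hk
    push Not at hk
    set S := ∑ i ∈ Finset.univ.erase k, p i with hS
    have hlim : Tendsto (fun T : ℝ => (m:ℝ) * (C * T) ^ ((1:ℝ) / m)) atTop atTop := by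
      apply Tendsto.const_mul_atTop hmpos
      exact (tendsto_rpow_atTop (by positivity)).comp (tendsto_id.const_mul_atTop hC)
    obtain ⟨T, hT1, hT2⟩ := ((hlim.eventually_gt_atTop S).and (eventually_gt_atTop 0)).exists
    have h1 := hp (Function.update (fun _ => 1) k T) (by
      intro i
      by_cases hi : i = k
      · subst hi; simpa using hT2
      · simp [Function.update_of_ne hi])
    have h2 : v C (Function.update (fun _ : Fin m => (1:ℝ)) k T) = (m:ℝ) * (C * T) ^ ((1:ℝ) / m) := by
      unfold v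
      congr 3
      rw [Finset.prod_update_of_mem (Finset.mem_univ k)]
      simp
    have h3 : ∑ i, (Function.update (fun _ : Fin m => (1:ℝ)) k T) i * p i = T * p k + S := by
      rw [← Finset.add_sum_erase _ _ (Finset.mem_univ k)]
      congr 1
      · simp
      · rw [hS]
        apply Finset.sum_congr rfl
        intro i hi
        have : i ≠ k := Finset.ne_of_mem_erase hi
        simp [Function.update_of_ne this]
    rw [h2, h3] at h1
    nlinarith
  have h1 := hp (fun i => (p i)⁻¹) (fun i => inv_pos.mpr (hpos i))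
  have h2 : ∑ i, (p i)⁻¹ * p i = m := by
    rw [Finset.sum_congr rfl (fun i _ => inv_mul_cancel₀ (hpos i).ne')]
    simp
  rw [h2] at h1
  unfold v at h1
  have hprod : 0 < ∏ i, p i := Finset.prod_pos (fun i _ => hpos i)
  rw [Finset.prod_inv_distrib] at h1
  have h3 : (C * (∏ i, p i)⁻¹) ^ ((1:ℝ) / m) ≤ 1 := by
    have : (m:ℝ) * (C * (∏ i, p i)⁻¹) ^ ((1:ℝ) / m) ≤ m * 1 := by linarith
    exact le_of_mul_le_mul_left this hmpos
  have h4 : C * (∏ i, p i)⁻¹ ≤ 1 := by
    by_contra hcon
    push Not at hcon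
    have := Real.one_lt_rpow hcon (show (0:ℝ) < 1 / m by positivity)
    linarith
  rw [← div_eq_mul_inv, div_le_one hprod] at h4
  exact h4

/-! ### chains -/

/-- `Reach u C y s`: the value `s` can be reached at `y` by a finite chain. -/
inductive Reach (u : (Fin m → ℝ) → ℝ) (C : ℝ) : (Fin m → ℝ) → ℝ → Prop
  | base (y : Fin m → ℝ) : y ∈ orthant m → Reach u C y 0
  | step (x y : Fin m → ℝ) (s : ℝ) : Reach u C x s → x ≤ y →
      Reach u C y (min (u x) (s + v C (y - x)))

/-- the minorant -/
noncomputable def W (u : (Fin m → ℝ) → ℝ) (C : ℝ) (y : Fin m → ℝ) : ℝ := sSup {s | Reach u C y s}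

section
variable {u : (Fin m → ℝ) → ℝ} {C : ℝ} (hC : 0 < C) (hm : 1 ≤ m)
  (hu : ∀ x ∈ orthant m, ∀ y, x ≤ y → u x ≤ u y) (hu0 : ∀ x ∈ orthant m, 0 ≤ u x)

lemma Reach.mem {y : Fin m → ℝ} {s : ℝ} (h : Reach u C y s) : y ∈ orthant m := by
  induction h with
  | base y hy => exact hy
  | step x y s _ hxy ih => exact orthant_mono ih hxy

lemma sub_mem {x y : Fin m → ℝ} (h : x ≤ y) : y - x ∈ orthant m := fun i => sub_nonneg.mpr (h i)

include hC hu hu0 in
lemma Reach.bd {y : Fin m → ℝ} {s : ℝ} (h : Reach u C y s) : 0 ≤ s ∧ s ≤ u y := by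
  induction h with
  | base y hy => exact ⟨le_refl _, hu0 y hy⟩
  | step x y s hx hxy ih =>
    refine ⟨le_min (hu0 x hx.mem) (add_nonneg ih.1 (v_nonneg hC (sub_mem hxy))), ?_⟩
    exact (min_le_left _ _).trans (hu x hx.mem y hxy)

include hC hu hu0 in
lemma W_bdd (y : Fin m → ℝ) : BddAbove {s | Reach u C y s} :=
  ⟨u y, fun _ hs => (Reach.bd hC hu hu0 hs).2⟩

include hC hu hu0 in
lemma le_W {y : Fin m → ℝ} {s : ℝ} (h : Reach u C y s) : s ≤ W u C y :=
  le_csSup (W_bdd hC hu hu0 y) h

include hC hu hu0 in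
lemma W_nonneg {y : Fin m → ℝ} (hy : y ∈ orthant m) : 0 ≤ W u C y :=
  le_W hC hu hu0 (Reach.base y hy)

include hC hu hu0 in
lemma W_le {y : Fin m → ℝ} (hy : y ∈ orthant m) : W u C y ≤ u y :=
  csSup_le ⟨0, Reach.base y hy⟩ (fun _ hs => (Reach.bd hC hu hu0 hs).2)

include hC hu hu0 in
lemma W_mono {x y : Fin m → ℝ} (hx : x ∈ orthant m) (hxy : x ≤ y) : W u C x ≤ W u C y := by
  apply csSup_le ⟨0, Reach.base x hx⟩
  intro s hs
  have h1 := le_W hC hu hu0 (Reach.step x y s hs hxy)
  refine le_trans (le_min ?_ ?_) h1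
  · exact (Reach.bd hC hu hu0 hs).2
  · have := v_nonneg hC (sub_mem hxy)
    linarith

include hC hu hu0 in
lemma W_P {x y : Fin m → ℝ} (hx : x ∈ orthant m) (hxy : x ≤ y) :
    min (u x) (W u C x + v C (y - x)) ≤ W u C y := by
  by_contra hcon
  push Not at hcon
  have h1 := lt_of_lt_of_le hcon (min_le_left _ _)
  have h2 := lt_of_lt_of_le hcon (min_le_right _ _)
  have h3 : W u C y - v C (y - x) < W u C x := by linarith
  obtain ⟨s, hs, hs2⟩ := exists_lt_of_lt_csSup ⟨0, Reach.base x hx⟩ h3
  have h4 := le_W hC hu hu0 (Reach.step x y s hs hxy)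
  rcases min_choice (u x) (s + v C (y - x)) with h | h
  · rw [h] at h4; linarith
  · rw [h] at h4; linarith

include hC hm hu hu0 in
lemma lower {y : Fin m → ℝ} {s : ℝ} (h : Reach u C y s) :
    ∀ c < s, ∀ᶠ y' in 𝓝[orthant m] y, c < W u C y' := by
  induction h with
  | base y hy =>
    intro c hc
    filter_upwards [self_mem_nhdsWithin] with y' hy'
    exact hc.trans_le (W_nonneg hC hu hu0 hy')
  | step x y s hx hxy ih =>
    intro c hc
    by_cases hst : ∀ i, x i < y i
    · have h1 : ∀ᶠ y' in 𝓝 y, ∀ i, x i < y' i := by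
        rw [eventually_all]
        intro i
        exact (continuous_apply i).continuousAt.eventually (lt_mem_nhds (hst i))
      have h2 : ∀ᶠ y' in 𝓝 y, c < s + v C (y' - x) := by
        have hcont : Continuous fun y' : Fin m → ℝ => s + v C (y' - x) :=
          continuous_const.add ((v_cont hm C).comp (continuous_id.sub continuous_const))
        exact hcont.continuousAt.eventually (lt_mem_nhds (hc.trans_le (min_le_right _ _)))
      filter_upwards [h1.filter_mono nhdsWithin_le_nhds, h2.filter_mono nhdsWithin_le_nhds]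
        with y' ha hb
      have h3 := le_W hC hu hu0 (Reach.step x y' s hx (fun i => (ha i).le))
      exact lt_of_lt_of_le (lt_min (hc.trans_le (min_le_left _ _)) hb) h3
    · push Not at hst
      obtain ⟨i, hi⟩ := hst
      have hv : v C (y - x) = 0 := v_zero hm C ⟨i, by
        have := hxy i
        simp only [Pi.sub_apply]
        linarith⟩
      have hcs : c < s := by
        have := hc.trans_le (min_le_right _ _)
        rwa [hv, add_zero] at this
      have hinf : Tendsto (fun y' : Fin m → ℝ => x ⊓ y') (𝓝[orthant m] y) (𝓝[orthant m] x) := by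
        apply tendsto_nhdsWithin_of_tendsto_nhds_of_eventually_within
        · have hc2 : Continuous fun y' : Fin m → ℝ => x ⊓ y' :=
            continuous_pi (fun j => continuous_const.min (continuous_apply j))
          have := hc2.tendsto y
          rw [inf_eq_left.mpr hxy] at this
          exact this.mono_left nhdsWithin_le_nhds
        · filter_upwards [self_mem_nhdsWithin] with y' hy'
          exact fun j => le_inf (hx.mem j) (hy' j)
      have h5 := hinf.eventually (ih c hcs)
      filter_upwards [h5, self_mem_nhdsWithin] with y' ha hy'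
      refine ha.trans_le (W_mono hC hu hu0 (fun j => le_inf (hx.mem j) (hy' j)) inf_le_right)

/-- the error terms -/
noncomputable def V (C : ℝ) (y : Fin m → ℝ) (j : Fin m) (z : Fin m → ℝ) : ℝ :=
  v C ((z - Pi.single j (y j)) ⊔ 0)

include hC in
lemma V_nonneg (y : Fin m → ℝ) (j : Fin m) (z : Fin m → ℝ) : 0 ≤ V C y j z :=
  v_nonneg hC (fun _ => le_sup_right)

include hC in
lemma V_mono (y : Fin m → ℝ) (j : Fin m) {z z' : Fin m → ℝ} (h : z ≤ z') :
    V C y j z ≤ V C y j z' := by
  apply v_mono hC (fun _ => le_sup_right)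
  exact sup_le_sup (sub_le_sub_right h _) le_rfl

include hC hm in
lemma V_step (y : Fin m → ℝ) (j : Fin m) {x z : Fin m → ℝ} (hx : x ∈ orthant m) (h : x ≤ z)
    (hj : y j < x j) : v C (z - x) + V C y j x ≤ V C y j z := by
  unfold V
  have h1 : x - Pi.single j (y j) ∈ orthant m := by
    intro i
    by_cases hi : i = j
    · subst hi; simp; exact hj.le
    · simp [Pi.single_eq_of_ne hi]; exact hx i
  have h2 : (x - Pi.single j (y j)) ⊔ 0 = x - Pi.single j (y j) := sup_eq_left.mpr h1
  rw [h2]
  refine (v_super hm hC (sub_mem h) h1).trans ?_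
  have h3 : z - x + (x - Pi.single j (y j)) = z - Pi.single j (y j) := by abel
  rw [h3]
  apply v_mono hC
  · exact orthant_mono h1 (sub_le_sub_right h _)
  · exact le_sup_left

include hC hm hu hu0 in
lemma upper_aux {y Z : Fin m → ℝ} (hy : y ∈ orthant m) (hyZ : y ≤ Z) {ε : ℝ} (hε : 0 < ε)
    (hunif : ∀ h k : Fin m → ℝ, h ∈ orthant m → k ∈ orthant m → h ≤ k → k ≤ Z →
      (∀ i, k i - h i ≤ Z i - y i) → v C k ≤ v C h + ε) {z : Fin m → ℝ} {s : ℝ}
    (h : Reach u C z s) : z ≤ Z → s ≤ W u C (z ⊓ y) + ε + ∑ j, V C y j z := by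
  induction h with
  | base z hz =>
    intro _
    have h1 : 0 ≤ W u C (z ⊓ y) := W_nonneg hC hu hu0 (fun i => le_inf (hz i) (hy i))
    have h2 : 0 ≤ ∑ j, V C y j z := Finset.sum_nonneg (fun j _ => V_nonneg hC y j z)
    linarith
  | step x z s hx hxz ih =>
    intro hzZ
    have ihx := ih (hxz.trans hzZ)
    by_cases hxy : x ≤ y
    · have hxzy : x ≤ z ⊓ y := le_inf hxz hxy
      have hP := W_P hC hu hu0 hx.mem hxzy
      have hsW : s ≤ W u C x := le_W hC hu hu0 hx
      have hv : v C (z - x) ≤ v C (z ⊓ y - x) + ε := by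
        apply hunif _ _ (sub_mem hxzy) (sub_mem hxz) (sub_le_sub_right inf_le_left _)
        · intro i
          have := hzZ i
          have := hx.mem i
          simp only [Pi.sub_apply]
          linarith
        · intro i
          simp only [Pi.sub_apply, Pi.inf_apply]
          have h1 := hzZ i
          rcases le_total (z i) (y i) with h2 | h2
          · rw [inf_eq_left.mpr h2]
            have h3 := hyZ i
            linarith
          · rw [inf_eq_right.mpr h2]
            linarith
      have h2 : 0 ≤ ∑ j, V C y j z := Finset.sum_nonneg (fun j _ => V_nonneg hC y j z)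
      have h3 : min (u x) (s + v C (z - x)) ≤ min (u x) (W u C x + v C (z ⊓ y - x)) + ε := by
        rw [← min_add_add_right]
        apply min_le_min
        · linarith
        · linarith
      linarith
    · rw [Pi.le_def] at hxy
      push Not at hxy
      obtain ⟨j, hj⟩ := hxy
      have h1 := V_step hC hm y j hx.mem hxz hj
      have h2 : W u C (x ⊓ y) ≤ W u C (z ⊓ y) :=
        W_mono hC hu hu0 (fun i => le_inf (hx.mem i) (hy i)) (inf_le_inf_right _ hxz)
      have h3 : V C y j z - V C y j x ≤ ∑ i, (V C y i z - V C y i x) :=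
        Finset.single_le_sum (f := fun i => V C y i z - V C y i x)
          (fun i _ => sub_nonneg.mpr (V_mono hC y i hxz)) (Finset.mem_univ j)
      rw [Finset.sum_sub_distrib] at h3
      have h4 := min_le_right (u x) (s + v C (z - x))
      linarith

omit hC in
include hm in
/-- uniform continuity of `v` near the box below `y` -/
lemma unif (y : Fin m → ℝ) {ε : ℝ} (hε : 0 < ε) :
    ∃ Z : Fin m → ℝ, (∀ i, y i < Z i) ∧ ∀ h k : Fin m → ℝ, h ∈ orthant m → k ∈ orthant m →
      h ≤ k → k ≤ Z → (∀ i, k i - h i ≤ Z i - y i) → v C k ≤ v C h + ε := by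
  have hK : IsCompact (Icc (0 : Fin m → ℝ) (fun i => y i + 1)) := isCompact_Icc
  have hU := hK.uniformContinuousOn_of_continuous (v_cont hm C).continuousOn
  rw [Metric.uniformContinuousOn_iff] at hU
  obtain ⟨δ, hδ, hU⟩ := hU ε hε
  set η := min (δ / 2) 1 with hη
  have hη0 : 0 < η := lt_min (by linarith) one_pos
  have hη1 : η ≤ 1 := min_le_right _ _
  have hη2 : η ≤ δ / 2 := min_le_left _ _
  refine ⟨fun i => y i + η, fun i => by simpa using hη0, ?_⟩
  intro h k hh hk hhk hkZ hd
  have h1 : k ∈ Icc (0 : Fin m → ℝ) (fun i => y i + 1) :=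
    ⟨hk, fun i => (hkZ i).trans (by simpa using hη1)⟩
  have h2 : h ∈ Icc (0 : Fin m → ℝ) (fun i => y i + 1) :=
    ⟨hh, fun i => (hhk i).trans (h1.2 i)⟩
  have h3 : dist k h < δ := by
    refine lt_of_le_of_lt ?_ (show η < δ by linarith)
    rw [dist_pi_le_iff hη0.le]
    intro i
    rw [Real.dist_eq, abs_of_nonneg (sub_nonneg.mpr (hhk i))]
    have := hd i
    simp only at this
    linarith
  have h4 := hU k h1 h h2 h3
  rw [Real.dist_eq] at h4
  have := (abs_lt.mp h4).2
  linarith

include hC hm hu hu0 in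
lemma upper {y : Fin m → ℝ} (hy : y ∈ orthant m) : ∀ c, W u C y < c →
    ∀ᶠ y' in 𝓝[orthant m] y, W u C y' < c := by
  intro c hc
  set ε := (c - W u C y) / 3 with hε
  have hε0 : 0 < ε := by rw [hε]; linarith
  obtain ⟨Z, hZ, hunif⟩ := unif hm y hε0
  have h1 : ∀ᶠ y' in 𝓝 y, y' ≤ Z := by
    have : ∀ᶠ y' in 𝓝 y, ∀ i, y' i ≤ Z i := by
      rw [eventually_all]
      intro i
      exact ((continuous_apply i).continuousAt.eventually (gt_mem_nhds (hZ i))).mono
        (fun _ h => h.le)
    exact this
  have h2 : ∀ᶠ y' in 𝓝 y, ∑ j, V C y j y' < ε := by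
    have hcont : Continuous fun y' : Fin m → ℝ => ∑ j, V C y j y' := by
      apply continuous_finsetSum
      intro j _
      unfold V
      refine (v_cont hm C).comp (continuous_pi (fun i => ?_))
      exact ((continuous_apply i).sub continuous_const).max continuous_const
    have h0 : ∑ j, V C y j y = 0 := by
      apply Finset.sum_eq_zero
      intro j _
      unfold V
      apply v_zero hm
      exact ⟨j, by simp⟩
    have := hcont.tendsto y
    rw [h0] at this
    exact this.eventually (gt_mem_nhds hε0)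
  filter_upwards [h1.filter_mono nhdsWithin_le_nhds, h2.filter_mono nhdsWithin_le_nhds,
    self_mem_nhdsWithin] with y' ha hb hy'
  have h3 : W u C y' ≤ W u C y + 2 * ε := by
    apply csSup_le ⟨0, Reach.base y' hy'⟩
    intro s hs
    have h4 := upper_aux hC hm hu hu0 hy (fun i => (hZ i).le) hε0 hunif hs ha
    have h5 : W u C (y' ⊓ y) ≤ W u C y :=
      W_mono hC hu hu0 (fun i => le_inf (hy' i) (hy i)) inf_le_right
    linarith
  linarith

include hC hm hu hu0 in
lemma W_cont : ContinuousOn (W u C) (orthant m) := by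
  intro y hy
  rw [ContinuousWithinAt, tendsto_order]
  refine ⟨?_, upper hC hm hu hu0 hy⟩
  intro c hc
  obtain ⟨s, hs, hcs⟩ := exists_lt_of_lt_csSup ⟨0, Reach.base y hy⟩ hc
  exact lower hC hm hu hu0 hs c hcs

include hC hm hu hu0 in
lemma W_deriv {x : Fin m → ℝ} (hx : x ∈ orthant m) {L : (Fin m → ℝ) →L[ℝ] ℝ}
    (hL : HasFDerivWithinAt (W u C) L (orthant m) x) (hne : W u C x ≠ u x) :
    C ≤ ∏ i, L (Pi.single i 1) := by
  have hlt : W u C x < u x := lt_of_le_of_ne (W_le hC hu hu0 hx) hne
  apply prod_ge hm hC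
  intro h hh
  have hh' : h ∈ orthant m := fun i => (hh i).le
  have hLh : L h = ∑ i, h i * L (Pi.single i 1) := by
    conv_lhs => rw [← Finset.univ_sum_single h]
    rw [map_sum]
    apply Finset.sum_congr rfl
    intro i _
    have : (Pi.single i (h i) : Fin m → ℝ) = h i • Pi.single i (1:ℝ) := by
      rw [← Pi.single_smul]; simp
    rw [this, map_smul, smul_eq_mul]
  rw [← hLh]
  -- derivative along the ray
  have hline : HasDerivWithinAt (fun t : ℝ => W u C (x + t • h)) (L h) (Ici 0) 0 := by
    have h1 : HasDerivWithinAt (fun t : ℝ => x + t • h) h (Ici 0) 0 := by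
      have : HasDerivAt (fun t : ℝ => x + t • h) ((1:ℝ) • h) 0 :=
        ((hasDerivAt_id (0:ℝ)).smul_const h).const_add x
      rw [one_smul] at this
      exact this.hasDerivWithinAt
    have h2 : MapsTo (fun t : ℝ => x + t • h) (Ici 0) (orthant m) := by
      intro t ht i
      have : 0 ≤ t * h i := mul_nonneg ht (hh i).le
      simp only [Pi.add_apply, Pi.smul_apply, smul_eq_mul]
      have := hx i
      linarith
    have h3 : HasFDerivWithinAt (W u C) L (orthant m) (x + (0:ℝ) • h) := by simpa using hL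
    exact h3.comp_hasDerivWithinAt 0 h1 h2
  have hslope : Tendsto (fun t : ℝ => t⁻¹ * (W u C (x + t • h) - W u C x)) (𝓝[>] 0) (𝓝 (L h)) := by
    have := hasDerivWithinAt_iff_tendsto_slope.mp hline
    have h4 : (Ici (0:ℝ)) \ {0} = Ioi 0 := by
      ext t; simp [lt_iff_le_and_ne, eq_comm]
    rw [h4] at this
    refine this.congr (fun t => ?_)
    simp [slope_def_field, div_eq_inv_mul]
  apply ge_of_tendsto hslope
  have hsmall : ∀ᶠ t in 𝓝[>] (0:ℝ), W u C x + t * v C h < u x := by
    have hc : Continuous fun t : ℝ => W u C x + t * v C h := by fun_prop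
    have := hc.tendsto 0
    simp only [zero_mul, add_zero] at this
    exact (this.eventually (gt_mem_nhds hlt)).filter_mono nhdsWithin_le_nhds
  filter_upwards [hsmall, self_mem_nhdsWithin] with t ht ht0
  have ht0' : 0 < t := ht0
  have hle : x ≤ x + t • h := by
    intro i
    have : 0 ≤ t * h i := mul_nonneg ht0'.le (hh i).le
    simp only [Pi.add_apply, Pi.smul_apply, smul_eq_mul]
    linarith
  have hP := W_P hC hu hu0 hx hle
  have h5 : x + t • h - x = t • h := by abel
  rw [h5, v_smul hm hC hh' ht0'.le, min_eq_right ht.le] at hP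
  rw [inv_mul_eq_div, le_div_iff₀ ht0']
  linarith

end

/-- **Monotone minorants with large derivative product exist in every dimension** (in particular
for `m ≥ 3`). Let `u` be a nonnegative function on the closed orthant of `ℝ^m`, increasing in each
variable (it need not vanish on the coordinate hyperplanes), and let `C > 0`. There is a function
`w`, continuous on the orthant and increasing in each variable, with `0 ≤ w ≤ u` on the orthant,
such that at every point of the orthant at which `w` is differentiable (one-sided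
differentiability, that is, relative to the orthant, is enough) and `w ≠ u`, the product of the
partial derivatives of `w` is at least `C`. -/
theorem result (m : ℕ) (hm : 1 ≤ m) (u : (Fin m → ℝ) → ℝ) (hu : IncreasingInEach u)
    (hu0 : ∀ x ∈ orthant m, 0 ≤ u x) (C : ℝ) (hC : 0 < C) :
    ∃ w : (Fin m → ℝ) → ℝ, ContinuousOn w (orthant m) ∧ IncreasingInEach w ∧
      (∀ x ∈ orthant m, 0 ≤ w x ∧ w x ≤ u x) ∧
      ∀ x ∈ orthant m, ∀ L : (Fin m → ℝ) →L[ℝ] ℝ, HasFDerivWithinAt w L (orthant m) x →
        w x ≠ u x → C ≤ ∏ i, L (Pi.single i 1) := by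
  have hmono : ∀ x ∈ orthant m, ∀ y, x ≤ y → u x ≤ u y := fun x hx y h => mono_of_inc hu hx h
  refine ⟨W u C, W_cont hC hm hmono hu0,
    inc_of_mono (fun x hx y h => W_mono hC hmono hu0 hx h), fun x hx =>
      ⟨W_nonneg hC hmono hu0 hx, W_le hC hmono hu0 hx⟩, ?_⟩
  intro x hx L hL hne
  exact W_deriv hC hm hmono hu0 hx hL hne

end Pool.Agent.Results.MP_b39627_an.MonotoneMinorant
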